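import Mathlib

/-!
# MP_f4f8d7_an, question Q1

A vertically rigid function, not of the form `a + b x`, such that for every `c > 0` the graph of
`c f` is carried onto the graph of `f` by a glide reflection with nonzero translation part (so by
an isometry which is neither a translation nor a reflection).

The function: fix a Hamel basis `B` of the reals over the rationals and a map `g` from `B` onto
the nonzero reals. Put `f (sum n_b b) = prod (g b) ^ n_b` when all the coordinates `n_b` are
integers and `f x = 0` for the other `x`. Then `f (x + b) = g b * f x`.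
-/

namespace Pool.Agent.Results.MP_f4f8d7_an.GlideCounterexample

open Cardinal

/-- The Euclidean plane. -/
abbrev Plane : Type := EuclideanSpace ℝ (Fin 2)

/-- The graph of `f` as a subset of the Euclidean plane. -/
def graph (f : ℝ → ℝ) : Set Plane := {p | p 1 = f (p 0)}

/-- `f` is vertically rigid: for every `c > 0` some isometry of the plane carries the graph of
`c f` onto the graph of `f`. -/
def VerticallyRigid (f : ℝ → ℝ) : Prop :=
  ∀ c : ℝ, 0 < c → ∃ φ : Plane ≃ᵢ Plane, φ '' graph (fun x => c * f x) = graph f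

/-- The isometry `φ` is a translation. -/
def IsTranslation (φ : Plane ≃ᵢ Plane) : Prop := ∃ v : Plane, ∀ p, φ p = p + v

/-- The isometry `φ` is the orthogonal reflection in some line, namely the line of all `p` with
`inner p n = d`, where `n` is a unit vector. -/
def IsReflection (φ : Plane ≃ᵢ Plane) : Prop :=
  ∃ (n : Plane) (d : ℝ), ‖n‖ = 1 ∧ ∀ p, φ p = p - (2 * (inner ℝ p n - d)) • n

/-! ### The function -/

/-- Index type of a Hamel basis. -/
abbrev I : Type := Module.Basis.ofVectorSpaceIndex ℚ ℝ

/-- A Hamel basis. -/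
noncomputable abbrev B : Module.Basis I ℚ ℝ := Module.Basis.ofVectorSpace ℚ ℝ

theorem exists_surj : ∃ g : I → ℝˣ, Function.Surjective g := by
  have h1 : #I = continuum := by
    rw [← Real.rank_rat_real]
    exact B.mk_eq_rank''
  have h2 : #ℝˣ ≤ #I := by
    rw [h1, ← Cardinal.mk_real]
    exact Cardinal.mk_le_of_injective (f := fun u : ℝˣ => (u : ℝ)) Units.val_injective
  obtain ⟨e⟩ := h2
  exact ⟨Function.invFun e, Function.invFun_surjective e.injective⟩

/-- Values on the basis: a map onto the nonzero reals. -/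
noncomputable def g : I → ℝˣ := exists_surj.choose

theorem g_surj : Function.Surjective g := exists_surj.choose_spec

/-- Integer coordinates of a real number with respect to the Hamel basis. -/
def IntCoord (x : ℝ) (m : I →₀ ℤ) : Prop := ∀ i, B.repr x i = (m i : ℚ)

theorem IntCoord.unique {x : ℝ} {m m' : I →₀ ℤ} (h : IntCoord x m) (h' : IntCoord x m') :
    m = m' := by
  ext i
  have := (h i).symm.trans (h' i)
  exact_mod_cast this

theorem IntCoord.add {x : ℝ} {m : I →₀ ℤ} (h : IntCoord x m) (i : I) :
    IntCoord (x + B i) (m + Finsupp.single i 1) := by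
  classical
  intro j
  rw [map_add, Finsupp.add_apply, h j, Module.Basis.repr_self, Finsupp.add_apply,
    Finsupp.single_apply, Finsupp.single_apply]
  split_ifs <;> push_cast <;> rfl

theorem IntCoord.sub {x : ℝ} {m : I →₀ ℤ} {i : I} (h : IntCoord (x + B i) m) :
    IntCoord x (m - Finsupp.single i 1) := by
  classical
  intro j
  have := h j
  rw [map_add, Finsupp.add_apply, Module.Basis.repr_self, Finsupp.single_apply] at this
  rw [Finsupp.sub_apply, Finsupp.single_apply]
  split_ifs with hij
  · rw [if_pos hij] at this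
    push_cast
    linarith
  · rw [if_neg hij] at this
    push_cast
    linarith

/-- The multiplicative extension of `g`. -/
noncomputable def G (m : I →₀ ℤ) : ℝˣ := m.prod fun i n => g i ^ n

theorem G_add (m m' : I →₀ ℤ) : G (m + m') = G m * G m' := by
  classical
  exact Finsupp.prod_add_index' (fun _ => zpow_zero _) (fun _ _ _ => zpow_add _ _ _)

theorem G_single (i : I) : G (Finsupp.single i 1) = g i := by
  rw [G, Finsupp.prod_single_index] <;> simp

open Classical in
/-- The function. -/
noncomputable def f (x : ℝ) : ℝ :=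
  if h : ∃ m, IntCoord x m then ((G h.choose : ℝˣ) : ℝ) else 0

theorem f_of {x : ℝ} {m : I →₀ ℤ} (h : IntCoord x m) : f x = ((G m : ℝˣ) : ℝ) := by
  have hx : ∃ m, IntCoord x m := ⟨m, h⟩
  rw [f, dif_pos hx, hx.choose_spec.unique h]

theorem f_of_not {x : ℝ} (h : ¬ ∃ m, IntCoord x m) : f x = 0 := by
  rw [f, dif_neg h]

theorem f_add (x : ℝ) (i : I) : f (x + B i) = (g i : ℝ) * f x := by
  by_cases h : ∃ m, IntCoord x m
  · obtain ⟨m, hm⟩ := h
    rw [f_of hm, f_of (hm.add i), G_add, G_single, mul_comm, Units.val_mul]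
  · have h' : ¬ ∃ m, IntCoord (x + B i) m := fun ⟨m, hm⟩ => h ⟨_, hm.sub⟩
    rw [f_of_not h, f_of_not h', mul_zero]

theorem f_zero : f 0 = 1 := by
  have h : IntCoord 0 0 := by
    intro i
    simp
  rw [f_of h, G, Finsupp.prod_zero_index, Units.val_one]

/-! ### The isometries -/

/-- The glide reflection `(x, y) ↦ (x + b, -y)` for `s = -1`, and the translation
`(x, y) ↦ (x + b, y)` for `s = 1`. -/
noncomputable def glide (b : ℝ) (s : ℝ) (hs : s * s = 1) : Plane ≃ᵢ Plane where
  toFun p := !₂[p 0 + b, s * p 1]
  invFun p := !₂[p 0 - b, s * p 1]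
  left_inv p := by
    ext i
    fin_cases i
    · simp
    · simp only [Fin.mk_one, Fin.isValue, PiLp.toLp_apply, Matrix.cons_val_one,
        Matrix.cons_val_fin_one]
      rw [← mul_assoc, hs, one_mul]
  right_inv p := by
    ext i
    fin_cases i
    · simp
    · simp only [Fin.mk_one, Fin.isValue, PiLp.toLp_apply, Matrix.cons_val_one,
        Matrix.cons_val_fin_one]
      rw [← mul_assoc, hs, one_mul]
  isometry_toFun := by
    refine Isometry.of_dist_eq fun p q => ?_
    rw [EuclideanSpace.dist_eq, EuclideanSpace.dist_eq]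
    congr 1
    simp only [Fin.sum_univ_two, Real.dist_eq, sq_abs, PiLp.toLp_apply, Matrix.cons_val_zero,
      Matrix.cons_val_one, Matrix.cons_val_fin_one]
    have : (s * p 1 - s * q 1) ^ 2 = (s * s) * (p 1 - q 1) ^ 2 := by ring
    rw [this, hs]
    ring

theorem glide_zero (b s : ℝ) (hs : s * s = 1) (p : Plane) : glide b s hs p 0 = p 0 + b := rfl

theorem glide_one (b s : ℝ) (hs : s * s = 1) (p : Plane) : glide b s hs p 1 = s * p 1 := rfl

theorem glide_symm_zero (b s : ℝ) (hs : s * s = 1) (p : Plane) :
    (glide b s hs).symm p 0 = p 0 - b := rfl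

theorem glide_symm_one (b s : ℝ) (hs : s * s = 1) (p : Plane) :
    (glide b s hs).symm p 1 = s * p 1 := rfl

theorem image_glide (b s c : ℝ) (hs : s * s = 1) (h : ∀ x, f (x + b) = s * c * f x) :
    glide b s hs '' graph (fun x => c * f x) = graph f := by
  ext p
  rw [← IsometryEquiv.coe_toEquiv, Equiv.image_eq_preimage_symm]
  change (glide b s hs).symm p 1 = c * f ((glide b s hs).symm p 0) ↔ p 1 = f (p 0)
  rw [glide_symm_zero, glide_symm_one]
  have h1 := h (p 0 - b)
  rw [sub_add_cancel] at h1
  rw [h1]
  constructor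
  · intro h2
    rw [mul_assoc, ← h2, ← mul_assoc, hs, one_mul]
  · intro h2
    rw [h2, mul_assoc, ← mul_assoc s s, hs, one_mul]

theorem glide_not_translation (b : ℝ) (hs : (-1 : ℝ) * (-1) = 1) :
    ¬ IsTranslation (glide b (-1) hs) := by
  rintro ⟨v, hv⟩
  have h0 := congrArg (fun p : Plane => p 1) (hv 0)
  have h1 := congrArg (fun p : Plane => p 1) (hv !₂[0, 1])
  simp only [glide_one] at h0 h1
  simp at h0 h1
  linarith

theorem glide_not_reflection (b : ℝ) (hb : b ≠ 0) (hs : (-1 : ℝ) * (-1) = 1) :
    ¬ IsReflection (glide b (-1) hs) := by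
  rintro ⟨n, d, hn, hr⟩
  -- the point `d n` is fixed by the reflection
  have h := congrArg (fun p : Plane => p 0) (hr (d • n))
  have hin : inner ℝ (d • n) n = d := by
    rw [real_inner_smul_left, real_inner_self_eq_norm_sq, hn]
    ring
  rw [hin] at h
  simp only [glide_zero] at h
  simp at h
  exact hb h

/-- **Q1 is false**: there is a vertically rigid function `f`, not of the form `a + b x`, such that
for every `c > 0` the graph of `c f` is carried onto the graph of `f` by an isometry of the plane
which is neither a translation nor a reflection. -/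
theorem result :
    ∃ f : ℝ → ℝ, VerticallyRigid f ∧ (¬ ∃ a b : ℝ, ∀ x, f x = a + b * x) ∧
      ∀ c : ℝ, 0 < c → ∃ φ : Plane ≃ᵢ Plane, φ '' graph (fun x => c * f x) = graph f ∧
        ¬ IsTranslation φ ∧ ¬ IsReflection φ := by
  have key : ∀ c : ℝ, 0 < c → ∃ φ : Plane ≃ᵢ Plane, φ '' graph (fun x => c * f x) = graph f ∧
        ¬ IsTranslation φ ∧ ¬ IsReflection φ := by
    intro c hc
    obtain ⟨i, hi⟩ := g_surj (Units.mk0 (-c) (by linarith))
    have hs : (-1 : ℝ) * (-1) = 1 := by norm_num
    refine ⟨glide (B i) (-1) hs, image_glide _ _ _ _ fun x => ?_, glide_not_translation _ hs,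
      glide_not_reflection _ (B.ne_zero i) hs⟩
    rw [f_add, hi, Units.val_mk0]
    ring
  refine ⟨f, fun c hc => ?_, ?_, key⟩
  · obtain ⟨φ, hφ, -, -⟩ := key c hc
    exact ⟨φ, hφ⟩
  · rintro ⟨a, b, hab⟩
    obtain ⟨i, hi⟩ := g_surj (-1)
    have h1 := f_add 0 i
    have h2 := f_add (B i) i
    rw [hi, zero_add, f_zero] at h1
    rw [hi, h1, hab] at h2
    rw [hab] at h1
    have h0 := f_zero
    rw [hab] at h0
    push_cast at h1 h2
    have hb : b * B i = -2 := by linarith
    have : b * (B i + B i) = 2 * (b * B i) := by ring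
    rw [this, hb] at h2
    linarith

end Pool.Agent.Results.MP_f4f8d7_an.GlideCounterexample
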